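import Pool.Agent.Lib.MP_abca01_gt.Overlap
import Pool.Agent.Lib.MP_abca01_gt.Borel
import Pool.Agent.Lib.MP_abca01_gt.EFin

/-!
# Cone volume measures: concentration conditions only for essential subspaces

Let `μ` be a finite Borel measure on the unit sphere which is not concentrated on a hyperplane, and
let `S` be a closed set of unit vectors, not contained in a closed hemisphere, with `μ(Sᶜ) = 0` (for
instance the support of `μ`, if it is not contained in a closed hemisphere). If every proper subspace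
`L ≠ 0` either satisfies the strict inequality `μ(L) < (dim L / n) |μ|`, or is not essential (for some
`v ∈ L`, `v ≠ 0`, all vectors of `S` close to `L` satisfy `⟪u, v⟫ ≤ 0`), then `μ` is the cone volume
measure of a convex body containing the origin. For discrete measures this is the theorem of
Boroczky, Hegedus and Zhu (strict case), and if all subspaces satisfy the inequality that of Chen, Li
and Zhu.
-/

set_option autoImplicit false

open MeasureTheory Set Metric
open scoped RealInnerProductSpace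

namespace Pool.Agent.Lib.MP_abca01_gt.Old.Essential

/-- The cone volume measure of `K` at `ω`: the volume of the set of the points `s • y`,
`0 ≤ s ≤ 1`, where `y` is a point of `K` at which some `u ∈ ω` is an exterior normal of `K`. -/
noncomputable def coneVol {n : ℕ} (K ω : Set (EuclideanSpace ℝ (Fin n))) : ENNReal :=
  volume {x | ∃ u ∈ ω, ∃ y ∈ K, (∀ z ∈ K, ⟪z, u⟫ ≤ ⟪y, u⟫) ∧ ∃ s ∈ Icc (0 : ℝ) 1, x = s • y}

theorem result (n : ℕ) (hn : 2 ≤ n) (mu : Measure (EuclideanSpace ℝ (Fin n)))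
    [IsFiniteMeasure mu] (S : Set (EuclideanSpace ℝ (Fin n))) (hS : IsClosed S)
    (hSs : S ⊆ sphere 0 1) (hmuS : mu Sᶜ = 0)
    (hhem : ∀ v : EuclideanSpace ℝ (Fin n), v ≠ 0 → ∃ u ∈ S, ⟪u, v⟫ < 0)
    (hhyp : ∀ v : EuclideanSpace ℝ (Fin n), v ≠ 0 → mu {u | ⟪u, v⟫ ≠ 0} ≠ 0)
    (hsub : ∀ L : Submodule ℝ (EuclideanSpace ℝ (Fin n)), L ≠ ⊥ → L ≠ ⊤ →
      (n : ℝ) * mu.real (L : Set (EuclideanSpace ℝ (Fin n))) <
        Module.finrank ℝ L * mu.real univ ∨
      ∃ v ∈ L, v ≠ 0 ∧ ∃ ε : ℝ, 0 < ε ∧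
        ∀ u ∈ S, infDist u (L : Set (EuclideanSpace ℝ (Fin n))) < ε → ⟪u, v⟫ ≤ 0) :
    ∃ K : Set (EuclideanSpace ℝ (Fin n)), IsCompact K ∧ Convex ℝ K ∧ (interior K).Nonempty ∧
      0 ∈ K ∧ ∀ ω : Set (EuclideanSpace ℝ (Fin n)), MeasurableSet ω → ω ⊆ sphere 0 1 →
        coneVol K ω = mu ω := by
  have hfr : Module.finrank ℝ (EuclideanSpace ℝ (Fin n)) = n := finrank_euclideanSpace_fin
  have b := Lib.MP_abca01_gt.stmtBorel Lib.MP_abca01_gt.stmtOverlap
  apply Lib.MP_abca01_gt.Ess.ess_theorem Lib.MP_abca01_gt.stmtVolDeriv b _ volume mu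
    (by rw [hfr]; omega) S hS hSs hmuS hhem hhyp
  intro L hL hL'
  rw [hfr]
  exact hsub L hL hL'

end Pool.Agent.Lib.MP_abca01_gt.Old.Essential
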