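import Pool.Agent.Lib.MP_abca01_gt.VolDeriv
import Pool.Agent.Lib.MP_abca01_gt.Variation
import Pool.Agent.Lib.MP_abca01_gt.Overlap
import Pool.Agent.Lib.MP_abca01_gt.Borel
import Pool.Agent.Lib.MP_abca01_gt.QGeom
import Pool.Agent.Lib.MP_abca01_gt.Ball
import Pool.Agent.Lib.MP_abca01_gt.ExistsMin
import Pool.Agent.Lib.MP_abca01_gt.Energy
import Pool.Agent.Lib.MP_abca01_gt.Cap
import Pool.Agent.Lib.MP_abca01_gt.Hemi

/-!
# Cone volume measures concentrated near a hemisphere

Every nontrivial finite Borel measure on the unit sphere that is concentrated on an open hemisphere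
is the cone volume measure of a convex body containing the origin. More generally this holds for
measures on a closed hemisphere with little mass on its boundary, and for measures giving no mass to
a cone around the antipode of the pole `v` and little mass to the complement of a cone around `v`.

`coneVol K ω` is the volume of the union of the segments from the origin to the points of the
boundary of `K` at which some vector of `ω` is an exterior normal, that is
`(1/n) ∫_ω h_K dS_K`.
-/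

set_option autoImplicit false

open MeasureTheory Set Metric
open scoped RealInnerProductSpace

namespace Pool.Agent.Lib.MP_abca01_gt.Old.Hemisphere

/-- The cone volume measure of `K` at `ω`: the volume of the set of the points `s • y`,
`0 ≤ s ≤ 1`, where `y` is a point of `K` at which some `u ∈ ω` is an exterior normal of `K`. -/
noncomputable def coneVol {n : ℕ} (K ω : Set (EuclideanSpace ℝ (Fin n))) : ENNReal :=
  volume {x | ∃ u ∈ ω, ∃ y ∈ K, (∀ z ∈ K, ⟪z, u⟫ ≤ ⟪y, u⟫) ∧ ∃ s ∈ Icc (0 : ℝ) 1, x = s • y}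

theorem result (n : ℕ) (hn : 2 ≤ n) (mu : Measure (EuclideanSpace ℝ (Fin n)))
    [IsFiniteMeasure mu] (hmu : mu ≠ 0) (hsph : mu (sphere (0 : EuclideanSpace ℝ (Fin n)) 1)ᶜ = 0)
    (v : EuclideanSpace ℝ (Fin n)) (hv : ‖v‖ = 1)
    (h : (mu {u | ⟪u, v⟫ < 0} = 0 ∧
          mu.real {u | ⟪u, v⟫ = 0} < 1 / (8 * n * 30 ^ n) * mu.real univ) ∨
        (∃ R : ℝ, 0 < R ∧ mu {u | ⟪u, v⟫ < -(R * ‖u - ⟪u, v⟫ • v‖)} = 0 ∧
          mu.real {u | ⟪u, v⟫ < (2 + 32 * n * 30 ^ n) * R * ‖u - ⟪u, v⟫ • v‖} ≤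
            1 / (8 * n * 30 ^ n) * mu.real univ)) :
    ∃ K : Set (EuclideanSpace ℝ (Fin n)), IsCompact K ∧ Convex ℝ K ∧ (interior K).Nonempty ∧
      0 ∈ K ∧ ∀ ω : Set (EuclideanSpace ℝ (Fin n)), MeasurableSet ω → ω ⊆ sphere 0 1 →
        coneVol K ω = mu ω := by
  have _ := hn
  have hfr : Module.finrank ℝ (EuclideanSpace ℝ (Fin n)) = n := finrank_euclideanSpace_fin
  have q := Lib.MP_abca01_gt.stmtQGeom
  have e := Lib.MP_abca01_gt.stmtEnergy Lib.MP_abca01_gt.stmtExistsMin q
    Lib.MP_abca01_gt.stmtBall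
  have w := Lib.MP_abca01_gt.stmtVariation Lib.MP_abca01_gt.stmtVolDeriv
  have b := Lib.MP_abca01_gt.stmtBorel Lib.MP_abca01_gt.stmtOverlap
  have c := Lib.MP_abca01_gt.stmtCap e q w b
  have hh := Lib.MP_abca01_gt.stmtHemi c
  rcases h with ⟨h1, h2⟩ | ⟨R, hR, h1, h2⟩
  · apply hh _ volume mu v hv hmu hsph h1
    rw [hfr]
    exact h2
  · apply c _ volume mu v R hv hR hmu hsph h1
    rw [hfr]
    exact h2

end Pool.Agent.Lib.MP_abca01_gt.Old.Hemisphere
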